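import Pool.Agent.R593.Cv.Fin

/-!
# Splitting of injections of Chow motives

The morphisms of Chow motives which are injective on cohomology split if and only if homological and
numerical equivalence coincide and the morphisms of Chow motives which are bijective on cohomology
are isomorphisms.
-/

set_option autoImplicit false
set_option backward.isDefEq.respectTransparency false
set_option backward.defeqAttrib.useBackward true

open CategoryTheory Limits MonoidalCategory Pretriangulated Triangulated
open Pool.Agent.Y116.MT (TensorTriangulated)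
open Pool.Agent.R920 (GReal)
open Pool.Agent.R593.Cv

namespace Pool.Agent.Results.MP_a147f7_ag.SplittingCriterion

universe v u w

/-- The realisation reflects isomorphisms between Chow motives. -/
def ReflectsIso {C : Type u} [Category.{v} C] [Preadditive C] [HasZeroObject C] [HasShift C ℤ]
    [∀ n : ℤ, (shiftFunctor C n).Additive] [Pretriangulated C] [MonoidalCategory C]
    [SymmetricCategory C] [RightRigidCategory C] {E : Type w} [Field E] {R : GReal C E}
    (M : Weights R) : Prop :=
  ∀ X Y : C, M.Chow X → M.Chow Y → ∀ f : X ⟶ Y, Function.Bijective (R.ap f) → IsIso f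

/-- The morphisms of Chow motives which are injective on cohomology split if and only if
(a) homological and numerical equivalence coincide, and (b) the morphisms of Chow motives which are
bijective on cohomology are isomorphisms. -/
theorem result {C : Type u} [Category.{v} C] [Preadditive C] [HasZeroObject C] [HasShift C ℤ]
    [∀ n : ℤ, (shiftFunctor C n).Additive] [Pretriangulated C] [IsTriangulated C]
    [MonoidalCategory C] [SymmetricCategory C] [TensorTriangulated C] [MonoidalPreadditive C]
    [RightRigidCategory C] [Linear ℚ C] [MonoidalLinear ℚ C]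
    {E : Type w} [Field E] [CharZero E] {R : GReal C E} (M : Weights R)
    (hE : ∀ e : 𝟙_ C ⟶ 𝟙_ C, ∃ q : ℚ, e = q • 𝟙 (𝟙_ C)) :
    M.Splitting ↔ M.HomNum ∧ ReflectsIso M := by
  constructor
  · intro h
    refine ⟨?_, ?_⟩
    · intro X hX s hs
      have h1 : Function.Injective (R.ap s) := by
        rw [← LinearMap.ker_eq_bot, eq_bot_iff]
        intro x hx
        obtain ⟨c, rfl⟩ := Pool.Agent.R920.eq_smul_one R.V x
        rw [LinearMap.mem_ker, map_smul] at hx
        rcases smul_eq_zero.1 hx with h2 | h2
        · rw [h2, zero_smul]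
          exact Submodule.zero_mem _
        · exact absurd ((R.ap_unit_eq_zero s).2 h2) hs
      obtain ⟨g, hg⟩ := h (𝟙_ C) X M.unit hX s h1
      refine ⟨g, ?_⟩
      rw [hg]
      intro h0
      exact R.not_isZero_unit ((IsZero.iff_id_eq_zero _).2 h0)
    · intro X Y hX hY f hf
      obtain ⟨g, hg⟩ := h X Y hX hY f hf.1
      have h1 : ∀ x, R.ap g (R.ap f x) = x := fun x => by
        rw [← GReal.ap_comp, hg, GReal.ap_id]
      have h2 : Function.Injective (R.ap g) := by
        intro y y' hy
        obtain ⟨x, rfl⟩ := hf.2 y
        obtain ⟨x', rfl⟩ := hf.2 y'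
        rw [h1, h1] at hy
        rw [hy]
      obtain ⟨k, hk⟩ := h Y X hY hX g h2
      have h3 : f = k := by
        calc f = f ≫ g ≫ k := by rw [hk, Category.comp_id]
          _ = k := by rw [← Category.assoc, hg, Category.id_comp]
      exact ⟨g, hg, by rw [h3]; exact hk⟩
  · rintro ⟨hg, hi⟩ X Y hX hY f hf
    obtain ⟨g, hg'⟩ := M.reg_hom hE hg hX hY f
    have h1 : ∀ x, R.ap (f ≫ g) x = x := by
      intro x
      rw [GReal.ap_comp]
      exact hf (hg' x)
    have h2 : IsIso (f ≫ g) := hi X X hX hX _ ⟨fun x y hxy => by rwa [h1, h1] at hxy,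
      fun x => ⟨x, h1 x⟩⟩
    refine ⟨g ≫ inv (f ≫ g), ?_⟩
    rw [← Category.assoc, IsIso.hom_inv_id]

end Pool.Agent.Results.MP_a147f7_ag.SplittingCriterion
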